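import Pool.Agent.K1H42.HP.Stm

namespace Pool.Agent.K1H98.HP

open Module Finset Pool.Agent.K1H42.HP

section
variable {F V : Type} [Field F] [AddCommGroup V] [Module F V] [Finite V]

/-- the vectors of a subspace, as a finite set -/
noncomputable def vec (A : Submodule F V) : Finset V := (Set.toFinite (A : Set V)).toFinset

@[simp] lemma mem_vec {A : Submodule F V} {x : V} : x ∈ vec A ↔ x ∈ A := by
  simp [vec]

lemma card_vec [Fintype F] (A : Submodule F V) :
    (vec A).card = Fintype.card F ^ finrank F A := by
  have h1 : (vec A).card = Nat.card A := by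
    unfold vec
    rw [← Set.ncard_eq_toFinset_card]
    rfl
  rw [h1, Module.natCard_eq_pow_finrank (K := F) (V := A), Nat.card_eq_fintype_card]

lemma vec_mono {A B : Submodule F V} (h : A ≤ B) : vec A ⊆ vec B := by
  intro x hx
  rw [mem_vec] at hx ⊢
  exact h hx

open Classical in
lemma card_diff [Fintype F] {A B : Submodule F V} (h : A ≤ B) :
    ((vec B \ vec A).card : ℝ) = (Fintype.card F : ℝ) ^ finrank F B - (Fintype.card F : ℝ) ^ finrank F A := by
  rw [Finset.card_sdiff_of_subset (vec_mono h), card_vec, card_vec, Nat.cast_sub]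
  · push_cast
    ring
  · exact Nat.pow_le_pow_right (Fintype.card_pos) (Submodule.finrank_mono h)

lemma finrank_sup_span {S : Submodule F V} {x : V} (hx : x ∉ S) :
    finrank F (S ⊔ Submodule.span F {x} : Submodule F V) = finrank F S + 1 := by
  haveI : FiniteDimensional F V := Module.Finite.of_finite
  have h := Submodule.finrank_sup_add_finrank_inf_eq S (Submodule.span F {x})
  have h0 : x ≠ 0 := fun h => hx (h ▸ S.zero_mem)
  have h2 : S ⊓ Submodule.span F {x} = ⊥ := by
    rw [← disjoint_iff]
    exact (Submodule.disjoint_span_singleton' h0).2 hx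
  rw [h2, finrank_bot, finrank_span_singleton h0] at h
  omega

end

theorem t_PTS : S_PTS := by
  classical
  intro F _ _ V _ _ _ q hq A
  haveI : FiniteDimensional F V := Module.Finite.of_finite
  have hq2 : 1 < q := hq ▸ Fintype.one_lt_card
  have hq1 : (1 : ℝ) < (q : ℝ) := by exact_mod_cast hq2
  have key : ((vec A \ vec (⊥ : Submodule F V)).card : ℝ) = ((pts A).card : ℝ) * ((q : ℝ) - 1) := by
    have h1 := Finset.card_eq_sum_card_fiberwise (s := vec A \ vec (⊥ : Submodule F V))
      (t := pts A) (f := fun x => Submodule.span F {x}) (by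
        intro x hx
        rw [Finset.mem_coe, Finset.mem_sdiff, mem_vec, mem_vec, Submodule.mem_bot] at hx
        rw [Finset.mem_coe, mem_pts]
        exact ⟨finrank_span_singleton hx.2, by
          rw [Submodule.span_singleton_le_iff_mem]; exact hx.1⟩)
    rw [h1]
    push_cast
    rw [Finset.sum_congr rfl (g := fun _ => (q : ℝ) - 1), Finset.sum_const, nsmul_eq_mul]
    intro P hP
    rw [mem_pts] at hP
    have h2 : (vec A \ vec (⊥ : Submodule F V)).filter (fun x => Submodule.span F {x} = P)
        = vec P \ vec (⊥ : Submodule F V) := by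
      ext x
      simp only [Finset.mem_filter, Finset.mem_sdiff, mem_vec, Submodule.mem_bot]
      constructor
      · rintro ⟨⟨-, h0⟩, rfl⟩
        exact ⟨Submodule.mem_span_singleton_self x, h0⟩
      · rintro ⟨hx, h0⟩
        refine ⟨⟨hP.2 hx, h0⟩, ?_⟩
        apply Submodule.eq_of_le_of_finrank_eq
        · rw [Submodule.span_singleton_le_iff_mem]; exact hx
        · rw [finrank_span_singleton h0, hP.1]
    rw [h2, card_diff bot_le, hP.1, finrank_bot, hq]
    ring
  rw [card_diff bot_le, finrank_bot, hq] at key
  have hbr : br q (finrank F A) * ((q : ℝ) - 1) = (q : ℝ) ^ finrank F A - 1 := by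
    unfold br
    exact geom_sum_mul (q : ℝ) _
  have h3 : (q : ℝ) - 1 ≠ 0 := by linarith
  apply mul_right_cancel₀ h3
  rw [← key, hbr]
  ring

theorem t_COUNT : S_COUNT := by
  classical
  intro F _ _ V _ _ _ q n k hq hn hk
  haveI : FiniteDimensional F V := Module.Finite.of_finite
  have hq2 : 1 < q := hq ▸ Fintype.one_lt_card
  have hq1 : (1 : ℝ) < (q : ℝ) := by exact_mod_cast hq2
  have main : ∀ j : ℕ, ∀ S : Submodule F V, finrank F S + j = k →
      dg (Gr F V k) S = D q n k (finrank F S) := by
    intro j
    induction j with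
    | zero =>
      intro S hS
      have h1 : above (Gr F V k) S = {S} := by
        ext A
        rw [mem_above, mem_Gr, Finset.mem_singleton]
        constructor
        · rintro ⟨h, h'⟩
          exact (Submodule.eq_of_le_of_finrank_eq h' (by omega)).symm
        · rintro rfl
          exact ⟨by omega, le_rfl⟩
      have h2 : finrank F S = k := by omega
      unfold dg D
      rw [h1, h2]
      simp
    | succ j ih =>
      intro S hS
      set s := finrank F S with hs
      have hsk : s < k := by omega
      have h1 := Finset.sum_card_bipartiteAbove_eq_sum_card_bipartiteBelow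
        (s := above (Gr F V k) S) (t := vec (⊤ : Submodule F V) \ vec S)
        (fun (A : Submodule F V) (x : V) => x ∈ A)
      have h2 : ∀ A ∈ above (Gr F V k) S,
          (((vec (⊤ : Submodule F V) \ vec S).bipartiteAbove
            (fun (A : Submodule F V) (x : V) => x ∈ A) A).card : ℝ) = (q : ℝ) ^ k - (q : ℝ) ^ s := by
        intro A hA
        rw [mem_above, mem_Gr] at hA
        have : (vec (⊤ : Submodule F V) \ vec S).bipartiteAbove
            (fun (A : Submodule F V) (x : V) => x ∈ A) A = vec A \ vec S := by
          ext x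
          simp [Finset.bipartiteAbove, and_comm]
        rw [this, card_diff hA.2, hA.1, hq]
      have h3 : ∀ x ∈ vec (⊤ : Submodule F V) \ vec S,
          (((above (Gr F V k) S).bipartiteBelow
            (fun (A : Submodule F V) (x : V) => x ∈ A) x).card : ℝ) = D q n k (s + 1) := by
        intro x hx
        rw [Finset.mem_sdiff, mem_vec, mem_vec] at hx
        have h4 := finrank_sup_span hx.2
        have h5 := ih (S ⊔ Submodule.span F {x}) (by omega)
        rw [h4] at h5
        rw [← h5]
        unfold dg
        congr 2
        ext A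
        simp only [Finset.bipartiteBelow, Finset.mem_filter, mem_above, mem_Gr, sup_le_iff,
          Submodule.span_singleton_le_iff_mem, and_assoc]
      have h6 : (dg (Gr F V k) S) * ((q : ℝ) ^ k - (q : ℝ) ^ s)
          = ((q : ℝ) ^ n - (q : ℝ) ^ s) * D q n k (s + 1) := by
        have h7 : (∑ A ∈ above (Gr F V k) S, (((vec (⊤ : Submodule F V) \ vec S).bipartiteAbove
            (fun (A : Submodule F V) (x : V) => x ∈ A) A).card : ℝ))
            = ∑ x ∈ vec (⊤ : Submodule F V) \ vec S, (((above (Gr F V k) S).bipartiteBelow
            (fun (A : Submodule F V) (x : V) => x ∈ A) x).card : ℝ) := by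
          exact_mod_cast h1
        rw [Finset.sum_congr rfl h2, Finset.sum_congr rfl h3, Finset.sum_const, Finset.sum_const,
          nsmul_eq_mul, nsmul_eq_mul, card_diff le_top, finrank_top, hn, hq, ← hs] at h7
        exact h7
      have h8 : D q n k s = ((q : ℝ) ^ n - (q : ℝ) ^ s) / ((q : ℝ) ^ k - (q : ℝ) ^ s)
          * D q n k (s + 1) := by
        unfold D
        rw [Finset.prod_eq_prod_Ico_succ_bot hsk]
      have h9 : (q : ℝ) ^ k - (q : ℝ) ^ s ≠ 0 := by
        have : (q : ℝ) ^ s < (q : ℝ) ^ k := pow_lt_pow_right₀ hq1 hsk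
        linarith
      rw [h8]
      field_simp
      linarith [h6]
  intro S hS
  exact main (k - finrank F S) S (by omega)

end Pool.Agent.K1H98.HP
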