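import Mathlib
import Pool.Agent.R227.LP11

set_option autoImplicit false

open Finset

namespace Pool.Agent.K1H98.HP

open Pool.Agent.R227.LP

/-- The `n`-th roots of unity. -/
noncomputable def rt (n : ℕ) (k : Fin n) : ℂ := Complex.exp (2 * Real.pi * Complex.I * (k / n))

/-- Points on the upper half circle. -/
noncomputable def hz (n : ℕ) (k : Fin n) : ℂ := Complex.exp ((Real.pi * (k / n) : ℝ) * Complex.I)

lemma hz_sq (n : ℕ) (k : Fin n) : hz n k ^ 2 = rt n k := by
  unfold hz rt
  rw [← Complex.exp_nat_mul]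
  congr 1
  push_cast
  ring

lemma norm_hz (n : ℕ) (k : Fin n) : ‖hz n k‖ = 1 := Complex.norm_exp_ofReal_mul_I _

lemma norm_rt (n : ℕ) (k : Fin n) : ‖rt n k‖ = 1 := by
  rw [← hz_sq, norm_pow, norm_hz, one_pow]

lemma rt_pow (n : ℕ) (hn : 0 < n) (k : Fin n) : rt n k ^ n = 1 := by
  unfold rt
  rw [← Complex.exp_nat_mul]
  have hn' : (n : ℂ) ≠ 0 := by exact_mod_cast hn.ne'
  have : (n : ℂ) * (2 * Real.pi * Complex.I * (k / n)) = (k : ℕ) * (2 * Real.pi * Complex.I) := by
    field_simp
  rw [this]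
  exact Complex.exp_nat_mul_two_pi_mul_I _

lemma rt_injective (n : ℕ) (hn : 0 < n) : Function.Injective (rt n) := by
  intro j k hjk
  have h1 := Complex.isPrimitiveRoot_exp n hn.ne'
  have h2 : ∀ k : Fin n, rt n k = Complex.exp (2 * Real.pi * Complex.I / n) ^ (k : ℕ) := by
    intro k
    unfold rt
    rw [← Complex.exp_nat_mul]
    congr 1
    ring
  rw [h2, h2] at hjk
  exact Fin.ext (h1.pow_inj j.2 k.2 hjk)

lemma geom (n : ℕ) (hn : 0 < n) (j k : Fin n) :
    ∑ l : Fin n, (rt n j * (starRingEnd ℂ) (rt n k)) ^ (l : ℕ) = if j = k then (n : ℂ) else 0 := by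
  have hmul : ∀ k : Fin n, rt n k * (starRingEnd ℂ) (rt n k) = 1 := by
    intro k
    rw [Complex.mul_conj, Complex.normSq_eq_norm_sq, norm_rt]
    norm_num
  by_cases h : j = k
  · subst h
    rw [if_pos rfl, hmul]
    simp
  · rw [if_neg h, Fin.sum_univ_eq_sum_range (fun l => (rt n j * (starRingEnd ℂ) (rt n k)) ^ l)]
    have hne : rt n j * (starRingEnd ℂ) (rt n k) ≠ 1 := by
      intro h1
      apply h
      apply rt_injective n hn
      have h2 : rt n j * ((starRingEnd ℂ) (rt n k) * rt n k) = rt n k := by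
        rw [← mul_assoc, h1, one_mul]
      rw [mul_comm ((starRingEnd ℂ) (rt n k)), hmul, mul_one] at h2
      exact h2
    rw [geom_sum_eq hne, mul_pow, ← map_pow, rt_pow n hn, rt_pow n hn]
    simp

lemma norm_det_sq (n : ℕ) (hn : 0 < n) : ‖(Matrix.vandermonde (rt n)).det‖ ^ 2 = (n : ℝ) ^ n := by
  have h1 : Matrix.vandermonde (rt n) * (Matrix.vandermonde (rt n)).conjTranspose =
      (n : ℂ) • (1 : Matrix (Fin n) (Fin n) ℂ) := by
    ext j k
    rw [Matrix.mul_apply]
    have : ∀ l : Fin n, Matrix.vandermonde (rt n) j l *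
        (Matrix.vandermonde (rt n)).conjTranspose l k =
        (rt n j * (starRingEnd ℂ) (rt n k)) ^ (l : ℕ) := by
      intro l
      rw [Matrix.conjTranspose_apply, Matrix.vandermonde_apply, Matrix.vandermonde_apply, mul_pow]
      simp
    rw [Finset.sum_congr rfl (fun l _ => this l), geom n hn]
    by_cases h : j = k
    · subst h; simp
    · simp [h]
  have h2 := congrArg Matrix.det h1
  rw [Matrix.det_mul, Matrix.det_conjTranspose, Matrix.det_smul, Matrix.det_one, mul_one,
    Fintype.card_fin] at h2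
  have h3 : (Matrix.vandermonde (rt n)).det * star (Matrix.vandermonde (rt n)).det =
      ((‖(Matrix.vandermonde (rt n)).det‖ ^ 2 : ℝ) : ℂ) := by
    rw [← Complex.normSq_eq_norm_sq]
    exact Complex.mul_conj _
  rw [h3] at h2
  exact_mod_cast h2

lemma WW_rt (n : ℕ) (hn : 0 < n) : WW (rt n) = (n : ℝ) ^ n := by
  rw [WW_eq, ← norm_det_sq n hn, Matrix.det_vandermonde, norm_prod]
  congr 1
  refine Finset.prod_congr rfl (fun i _ => ?_)
  rw [norm_prod]
  refine Finset.prod_congr rfl (fun j _ => ?_)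
  rw [norm_sub_rev]

lemma WW_le {n : ℕ} (z : Fin n → ℂ) (hz : ∀ i, ‖z i‖ = 1) :
    WW (fun i => z i ^ 2) ≤ 2 ^ (n * (n - 1)) * WW z := by
  have h1 : ∀ i j : Fin n, (if i = j then (1 : ℝ) else ‖z i ^ 2 - z j ^ 2‖) ≤
      (if i = j then 1 else 2) * (if i = j then 1 else ‖z i - z j‖) := by
    intro i j
    by_cases h : i = j
    · simp [h]
    · simp only [h, if_false]
      have : z i ^ 2 - z j ^ 2 = (z i + z j) * (z i - z j) := by ring
      rw [this, norm_mul]
      refine mul_le_mul_of_nonneg_right ?_ (norm_nonneg _)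
      calc ‖z i + z j‖ ≤ ‖z i‖ + ‖z j‖ := norm_add_le _ _
        _ = 2 := by rw [hz, hz]; norm_num
  unfold WW
  calc ∏ i, ∏ j, (if i = j then (1 : ℝ) else ‖z i ^ 2 - z j ^ 2‖)
      ≤ ∏ i, ∏ j, ((if i = j then 1 else 2) * (if i = j then 1 else ‖z i - z j‖)) := by
        refine Finset.prod_le_prod (fun i _ => Finset.prod_nonneg (fun j _ => ?_)) (fun i _ =>
          Finset.prod_le_prod (fun j _ => ?_) (fun j _ => h1 i j))
        · split_ifs
          · norm_num
          · exact norm_nonneg _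
        · split_ifs
          · norm_num
          · exact norm_nonneg _
    _ = 2 ^ (n * (n - 1)) * ∏ i, ∏ j, (if i = j then 1 else ‖z i - z j‖) := by
        simp only [Finset.prod_mul_distrib]
        congr 1
        have h2 : ∀ i : Fin n, ∏ j : Fin n, (if i = j then (1 : ℝ) else 2) = 2 ^ (n - 1) := by
          intro i
          rw [Finset.prod_ite, Finset.prod_const_one, one_mul, Finset.prod_const]
          congr 1
          have : (Finset.univ.filter fun j : Fin n => ¬ (i = j)) = Finset.univ.erase i := by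
            ext j
            simp [eq_comm]
          rw [this, Finset.card_erase_of_mem (Finset.mem_univ i)]
          simp
        rw [Finset.prod_congr rfl (fun i _ => h2 i), Finset.prod_const, Finset.card_univ,
          Fintype.card_fin, ← pow_mul, mul_comm]

lemma WW_hz (n : ℕ) (hn : 0 < n) : (1 / 2 : ℝ) ^ (n * (n - 1)) ≤ WW (hz n) := by
  have h1 := WW_le (hz n) (norm_hz n)
  have h2 : (fun i => hz n i ^ 2) = rt n := funext (hz_sq n)
  rw [h2, WW_rt n hn] at h1
  have h3 : (1 : ℝ) ≤ (n : ℝ) ^ n := one_le_pow₀ (by exact_mod_cast hn)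
  have h4 : 1 ≤ 2 ^ (n * (n - 1)) * WW (hz n) := h3.trans h1
  rw [one_div, inv_pow, inv_le_iff_one_le_mul₀ (by positivity)]
  linarith

/-- A bounded set that contains the closed upper half of the unit circle has all its diameters
at least `1/2`. -/
lemma half_le_diamN {E : Set ℂ} {R : ℝ} (hE : E ⊆ Metric.closedBall 0 R)
    (hz' : ∀ t ∈ Set.Icc (0 : ℝ) Real.pi, Complex.exp (t * Complex.I) ∈ E) {n : ℕ} (hn : 2 ≤ n) :
    1 / 2 ≤ diamN E n := by
  have hmem : ∀ i, hz n i ∈ E := by
    intro i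
    refine hz' _ ⟨by positivity, ?_⟩
    have h1 : ((i : ℕ) : ℝ) / n ≤ 1 := by
      rw [div_le_one (by positivity)]
      exact_mod_cast i.2.le
    calc Real.pi * ((i : ℕ) / n) ≤ Real.pi * 1 :=
          mul_le_mul_of_nonneg_left h1 Real.pi_pos.le
      _ = Real.pi := mul_one _
  have h1 := le_diamN hE hn (hz n) hmem
  have h2 := (WW_hz n (by omega)).trans h1
  exact le_of_pow_le_pow_left₀ (by
    have : 0 < n * (n - 1) := Nat.mul_pos (by omega) (by omega)
    omega) (diamN_nonneg E n) h2

end Pool.Agent.K1H98.HP
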