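import Mathlib

set_option autoImplicit false

open Finset

namespace Pool.Agent.K1H98.HP

/-- Size of the `n`-th monomial `x ^ n / √(n!)`. -/
noncomputable def AA (x : ℝ) (n : ℕ) : ℝ := x ^ n / Real.sqrt (n.factorial : ℝ)

lemma AA_pos {x : ℝ} (hx : 0 < x) (n : ℕ) : 0 < AA x n := by
  unfold AA
  have : (0 : ℝ) < (n.factorial : ℝ) := by exact_mod_cast n.factorial_pos
  positivity

lemma AA_succ {x : ℝ} (n : ℕ) : AA x (n + 1) = AA x n * (x / Real.sqrt (n + 1)) := by
  unfold AA
  rw [Nat.factorial_succ, Nat.cast_mul, Real.sqrt_mul (by positivity), pow_succ]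
  push_cast
  have h1 : Real.sqrt ((n : ℝ) + 1) ≠ 0 := by positivity
  have h2 : Real.sqrt (n.factorial : ℝ) ≠ 0 := by positivity
  field_simp

/-- beyond `x ^ 2` the sizes decrease -/
lemma AA_ge {x : ℝ} (hx : 0 < x) {m : ℕ} (hm : x ^ 2 ≤ m) (j : ℕ) : AA x (m + j) ≤ AA x m := by
  induction j with
  | zero => exact le_rfl
  | succ j ih =>
    rw [← add_assoc, AA_succ]
    refine le_trans ?_ ih
    have h1 : x / Real.sqrt (((m + j : ℕ) : ℝ) + 1) ≤ 1 := by
      rw [div_le_one (by positivity)]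
      apply Real.le_sqrt_of_sq_le
      push_cast
      have : (0 : ℝ) ≤ j := by positivity
      linarith
    calc AA x (m + j) * (x / Real.sqrt (((m + j : ℕ) : ℝ) + 1)) ≤ AA x (m + j) * 1 :=
          mul_le_mul_of_nonneg_left h1 (AA_pos hx _).le
      _ = _ := mul_one _

/-- geometric decay beyond `4 x ^ 2` -/
lemma AA_geo {x : ℝ} (hx : 0 < x) {m : ℕ} (hm : x ^ 2 ≤ m) (j : ℕ) :
    AA x (4 * m + j) ≤ (1 / 2) ^ j * AA x m := by
  induction j with
  | zero =>
    have h := AA_ge hx hm (3 * m)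
    have h2 : m + 3 * m = 4 * m := by ring
    rw [h2] at h
    simpa using h
  | succ j ih =>
    rw [← add_assoc, AA_succ]
    have h1 : x / Real.sqrt (((4 * m + j : ℕ) : ℝ) + 1) ≤ 1 / 2 := by
      rw [div_le_iff₀ (by positivity)]
      have h2 : 2 * x ≤ Real.sqrt (((4 * m + j : ℕ) : ℝ) + 1) := by
        apply Real.le_sqrt_of_sq_le
        push_cast
        have : (0 : ℝ) ≤ j := by positivity
        nlinarith
      linarith
    calc AA x (4 * m + j) * (x / Real.sqrt (((4 * m + j : ℕ) : ℝ) + 1))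
        ≤ ((1 / 2) ^ j * AA x m) * (1 / 2) :=
          mul_le_mul ih h1 (by positivity) (by have := (AA_pos hx m).le; positivity)
      _ = _ := by ring

/-- sizes below the central index -/
lemma AA_low {x G : ℝ} (hx : 0 < x) (hG : 1 ≤ G) {m q : ℕ} (hqm : q ≤ m)
    (hGm : Real.sqrt m ≤ G * x) (hq : Real.sqrt q ≤ x) {n : ℕ} (hn : n ≤ m) :
    AA x n ≤ G ^ (m - q) * AA x m := by
  -- one step with the factor `G`
  have step : ∀ k, k + 1 ≤ m → AA x k ≤ G * AA x (k + 1) := by
    intro k hk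
    rw [AA_succ]
    have h1 : Real.sqrt ((k : ℝ) + 1) ≤ G * x := by
      refine le_trans (Real.sqrt_le_sqrt ?_) hGm
      exact_mod_cast hk
    have h2 : 1 ≤ G * (x / Real.sqrt ((k : ℝ) + 1)) := by
      rw [← mul_div_assoc, le_div_iff₀ (by positivity), one_mul]
      exact h1
    calc AA x k = AA x k * 1 := (mul_one _).symm
      _ ≤ AA x k * (G * (x / Real.sqrt ((k : ℝ) + 1))) :=
          mul_le_mul_of_nonneg_left h2 (AA_pos hx k).le
      _ = _ := by ring
  have hhigh : ∀ j, j ≤ m → AA x (m - j) ≤ G ^ j * AA x m := by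
    intro j
    induction j with
    | zero => intro _; simp
    | succ j ih =>
      intro hj
      have h1 := step (m - (j + 1)) (by omega)
      have h2 : m - (j + 1) + 1 = m - j := by omega
      rw [h2] at h1
      calc AA x (m - (j + 1)) ≤ G * AA x (m - j) := h1
        _ ≤ G * (G ^ j * AA x m) := mul_le_mul_of_nonneg_left (ih (by omega)) (by linarith)
        _ = _ := by ring
  have step2 : ∀ k, k + 1 ≤ q → AA x k ≤ AA x (k + 1) := by
    intro k hk
    rw [AA_succ]
    have h1 : Real.sqrt ((k : ℝ) + 1) ≤ x := by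
      refine le_trans (Real.sqrt_le_sqrt ?_) hq
      exact_mod_cast hk
    have h2 : 1 ≤ x / Real.sqrt ((k : ℝ) + 1) := by
      rw [le_div_iff₀ (by positivity), one_mul]
      exact h1
    calc AA x k = AA x k * 1 := (mul_one _).symm
      _ ≤ AA x k * (x / Real.sqrt ((k : ℝ) + 1)) := mul_le_mul_of_nonneg_left h2 (AA_pos hx k).le
  have hlow : ∀ j, j ≤ q → AA x (q - j) ≤ AA x q := by
    intro j
    induction j with
    | zero => intro _; simp
    | succ j ih =>
      intro hj
      have h1 := step2 (q - (j + 1)) (by omega)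
      have h2 : q - (j + 1) + 1 = q - j := by omega
      rw [h2] at h1
      exact h1.trans (ih (by omega))
  rcases le_or_gt q n with h | h
  · have h1 := hhigh (m - n) (by omega)
    have h2 : m - (m - n) = n := by omega
    rw [h2] at h1
    refine h1.trans (mul_le_mul_of_nonneg_right ?_ (AA_pos hx m).le)
    exact pow_le_pow_right₀ hG (by omega)
  · have h1 := hlow (q - n) (by omega)
    have h2 : q - (q - n) = n := by omega
    rw [h2] at h1
    have h3 := hhigh (m - q) (by omega)
    have h4 : m - (m - q) = q := by omega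
    rw [h4] at h3
    exact h1.trans h3

/-- A dominating term prevents the sum from vanishing. -/
lemma nonvanish {g : ℕ → ℂ} {a : ℝ} (ha : 0 < a) {m N : ℕ} (hm : 1 ≤ m) (hN : m ≤ N)
    (h1 : ∀ n, n < m → ‖g n‖ ≤ a / (8 * m))
    (h2 : ∀ n, m < n → n ≤ N → ‖g n‖ ≤ a / (16 * N))
    (h3 : ∀ k, ‖g (N + 1 + k)‖ ≤ a * (1 / 16) * (3 / 4) ^ (k + 1))
    (hgm : a ≤ ‖g m‖) : ∑' n, g n ≠ 0 := by
  have hm' : (0 : ℝ) < m := by exact_mod_cast hm
  have hN' : (0 : ℝ) < N := by exact_mod_cast (lt_of_lt_of_le hm hN)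
  have hs : Summable (fun k => a * (1 / 16) * (3 / 4 : ℝ) ^ (k + 1)) := by
    have : Summable (fun k : ℕ => (3 / 4 : ℝ) ^ k) :=
      summable_geometric_of_lt_one (by norm_num) (by norm_num)
    have h4 := ((summable_nat_add_iff 1).mpr this).mul_left (a * (1 / 16))
    exact h4
  have hts : Summable (fun k => g (k + (N + 1))) := by
    refine Summable.of_norm_bounded hs (fun k => ?_)
    rw [add_comm k]
    exact h3 k
  have hg : Summable g := (summable_nat_add_iff (N + 1)).mp hts
  have htail : ‖∑' k, g (k + (N + 1))‖ ≤ 3 / 16 * a := by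
    have h5 : HasSum (fun k : ℕ => a * (1 / 16) * (3 / 4 : ℝ) ^ (k + 1)) (a * (1 / 16) * 3) := by
      have h6 := (hasSum_geometric_of_lt_one (r := (3 / 4 : ℝ)) (by norm_num) (by norm_num)).mul_left
        (a * (1 / 16) * (3 / 4))
      have e1 : (fun k : ℕ => a * (1 / 16) * (3 / 4 : ℝ) ^ (k + 1)) =
          fun i : ℕ => a * (1 / 16) * (3 / 4) * (3 / 4 : ℝ) ^ i := by
        funext k
        ring
      have e2 : a * (1 / 16) * 3 = a * (1 / 16) * (3 / 4) * (1 - 3 / 4)⁻¹ := by
        norm_num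
        ring
      rw [e1, e2]
      exact h6
    have h7 := tsum_of_norm_bounded h5 (f := fun k => g (k + (N + 1))) (fun k => by
      rw [add_comm k]
      exact h3 k)
    linarith
  intro h0
  rw [← hg.sum_add_tsum_nat_add (N + 1)] at h0
  have hsplit : ∑ i ∈ range (N + 1), g i = ∑ i ∈ range m, g i + (g m + ∑ i ∈ Ico (m + 1) (N + 1), g i) := by
    rw [← Finset.sum_range_add_sum_Ico g (show m ≤ N + 1 by omega),
      ← Finset.sum_eq_sum_Ico_succ_bot (by omega)]
  rw [hsplit] at h0
  have hA : ‖∑ i ∈ range m, g i‖ ≤ 1 / 8 * a := by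
    refine (norm_sum_le _ _).trans ?_
    calc ∑ i ∈ range m, ‖g i‖ ≤ ∑ _i ∈ range m, a / (8 * m) :=
          Finset.sum_le_sum (fun i hi => h1 i (Finset.mem_range.mp hi))
      _ = 1 / 8 * a := by
          rw [Finset.sum_const, Finset.card_range, nsmul_eq_mul]
          field_simp
  have hB : ‖∑ i ∈ Ico (m + 1) (N + 1), g i‖ ≤ 1 / 16 * a := by
    refine (norm_sum_le _ _).trans ?_
    calc ∑ i ∈ Ico (m + 1) (N + 1), ‖g i‖ ≤ ∑ _i ∈ Ico (m + 1) (N + 1), a / (16 * N) :=
          Finset.sum_le_sum (fun i hi => by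
            have := Finset.mem_Ico.mp hi
            exact h2 i (by omega) (by omega))
      _ = ((N - m : ℕ) : ℝ) * (a / (16 * N)) := by
          rw [Finset.sum_const, Nat.card_Ico, nsmul_eq_mul]
          congr 2
          omega
      _ ≤ N * (a / (16 * N)) := by
          refine mul_le_mul_of_nonneg_right ?_ (by positivity)
          exact_mod_cast Nat.sub_le N m
      _ = 1 / 16 * a := by field_simp
  have hgm2 : g m = - (∑ i ∈ range m, g i + ∑ i ∈ Ico (m + 1) (N + 1), g i +
      ∑' k, g (k + (N + 1))) := by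
    linear_combination h0
  have h8 : ‖g m‖ ≤ 1 / 8 * a + 1 / 16 * a + 3 / 16 * a := by
    rw [hgm2, norm_neg]
    exact (norm_add₃_le).trans (by linarith)
  linarith

end Pool.Agent.K1H98.HP
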