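import Mathlib
import Pool.Agent.Helper579.CgGam

set_option autoImplicit false

open MeasureTheory ProbabilityTheory Finset
open scoped ENNReal

namespace Pool.Agent.K1H98.HP

open Pool.Agent.Helper579.Cg

lemma expo_Ioi {x : ℝ} (hx : 0 ≤ x) : expo (Set.Ioi x) = ENNReal.ofReal (Real.exp (-x)) := by
  rw [expo, withDensity_apply _ measurableSet_Ioi, Measure.restrict_restrict measurableSet_Ioi]
  have h1 : Set.Ioi x ∩ Set.Ioi (0 : ℝ) = Set.Ioi x := by
    ext y
    simp only [Set.mem_inter_iff, Set.mem_Ioi, and_iff_left_iff_imp]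
    intro hy
    linarith
  rw [h1, ← ofReal_integral_eq_lintegral_ofReal (integrableOn_exp_neg_Ioi x)
    (ae_of_all _ fun _ => (Real.exp_nonneg _)), integral_exp_neg_Ioi]

lemma gam_gt {t : ℝ} (ht : 0 ≤ t) : gam {w | t < ‖w‖} = ENNReal.ofReal (Real.exp (-t ^ 2)) := by
  have h1 : {w : ℂ | t < ‖w‖} = (fun z : ℂ => ‖z‖ ^ 2) ⁻¹' (Set.Ioi (t ^ 2)) := by
    ext w
    simp only [Set.mem_ofPred_eq, Set.mem_preimage, Set.mem_Ioi]
    constructor
    · intro h
      exact pow_lt_pow_left₀ h ht (by norm_num)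
    · intro h
      exact lt_of_pow_lt_pow_left₀ 2 (norm_nonneg _) h
  rw [h1, ← Measure.map_apply (by fun_prop) measurableSet_Ioi, gam_sq, expo_Ioi (by positivity)]

lemma gam_le {t : ℝ} (ht : 0 ≤ t) : gam.real {w | ‖w‖ ≤ t} = 1 - Real.exp (-t ^ 2) := by
  have h1 : {w : ℂ | ‖w‖ ≤ t} = {w : ℂ | t < ‖w‖}ᶜ := by
    ext w
    simp
  have hm : MeasurableSet {w : ℂ | t < ‖w‖} := measurableSet_lt measurable_const measurable_norm
  rw [h1, probReal_compl_eq_one_sub hm, measureReal_def, gam_gt ht,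
    ENNReal.toReal_ofReal (Real.exp_nonneg _)]

lemma gam_le_small {t : ℝ} (ht : 0 ≤ t) (ht1 : t ≤ 1) :
    t ^ 2 / 2 ≤ gam.real {w | ‖w‖ ≤ t} := by
  rw [gam_le ht]
  have h1 : t ^ 2 ≤ 1 := by nlinarith
  have h0 : 0 ≤ t ^ 2 := by positivity
  have h2 : 1 + t ^ 2 ≤ Real.exp (t ^ 2) := by
    have := Real.add_one_le_exp (t ^ 2)
    linarith
  have h3 : Real.exp (-t ^ 2) ≤ 1 / (1 + t ^ 2) := by
    rw [Real.exp_neg, ← one_div]
    exact one_div_le_one_div_of_le (by linarith) h2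
  have h4 : 1 / (1 + t ^ 2) ≤ 1 - t ^ 2 / 2 := by
    rw [div_le_iff₀ (by linarith)]
    nlinarith
  linarith

lemma gam_ge_one : Real.exp (-1) ≤ gam.real {w | 1 ≤ ‖w‖} := by
  have h1 : gam.real {w : ℂ | 1 < ‖w‖} ≤ gam.real {w : ℂ | 1 ≤ ‖w‖} :=
    measureReal_mono (fun w hw => by
      have h : 1 < ‖w‖ := hw
      exact h.le)
  rw [measureReal_def, gam_gt (by norm_num), ENNReal.toReal_ofReal (Real.exp_nonneg _)] at h1
  simpa using h1

lemma gam_le_big (k : ℕ) : 1 - (1 / 2 : ℝ) ^ (k + 1) ≤ gam.real {w | ‖w‖ ≤ (3 / 2 : ℝ) ^ k} := by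
  rw [gam_le (by positivity)]
  have h1 : Real.exp (-((3 / 2 : ℝ) ^ k) ^ 2) ≤ (1 / 2 : ℝ) ^ (k + 1) := by
    have h2 : (1 : ℝ) + k ≤ ((3 / 2 : ℝ) ^ k) ^ 2 := by
      rw [← pow_mul, mul_comm k 2, pow_mul]
      have h3 := one_add_mul_le_pow (a := (5 / 4 : ℝ)) (by norm_num) k
      have h4 : (1 : ℝ) + 5 / 4 = (3 / 2) ^ 2 := by norm_num
      rw [h4] at h3
      have : (0 : ℝ) ≤ k := by positivity
      linarith
    have h5 : Real.exp (-1) ≤ 1 / 2 := by
      have := Real.exp_one_gt_d9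
      rw [Real.exp_neg, one_div]
      exact inv_anti₀ (by norm_num) (by linarith)
    calc Real.exp (-((3 / 2 : ℝ) ^ k) ^ 2) ≤ Real.exp (-((k + 1 : ℕ) : ℝ)) := by
          apply Real.exp_le_exp.mpr
          push_cast
          linarith
      _ = Real.exp (-1) ^ (k + 1) := by
          rw [← Real.exp_nat_mul]
          congr 1
          ring
      _ ≤ (1 / 2 : ℝ) ^ (k + 1) := pow_le_pow_left₀ (Real.exp_nonneg _) h5 _
  linarith

variable {Ω : Type*} [MeasurableSpace Ω] {P : Measure Ω} [IsProbabilityMeasure P]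

/-- Lower bound for the probability of a countable intersection of independent events. -/
lemma iInter_ge {ξ : ℕ → Ω → ℂ} (hξm : ∀ n, Measurable (ξ n)) (hξi : iIndepFun ξ P)
    (S : ℕ → Set ℂ) (hS : ∀ n, MeasurableSet (S n)) {c : ℝ}
    (hc : ∀ M, c ≤ ∏ n ∈ range M, P.real (ξ n ⁻¹' S n)) :
    c ≤ P.real (⋂ n, ξ n ⁻¹' S n) := by
  have h1 : (⋂ n, ξ n ⁻¹' S n) = ⋂ M, ⋂ n ∈ range M, ξ n ⁻¹' S n := by
    ext ω
    simp only [Set.mem_iInter, Finset.mem_range]
    constructor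
    · intro h M n _
      exact h n
    · intro h n
      exact h (n + 1) n (Nat.lt_succ_self n)
  have hmeas : ∀ M, MeasurableSet (⋂ n ∈ range M, ξ n ⁻¹' S n) := fun M =>
    Finset.measurableSet_biInter _ (fun n _ => hξm n (hS n))
  have h2 : Filter.Tendsto (fun M => P (⋂ n ∈ range M, ξ n ⁻¹' S n)) Filter.atTop
      (nhds (P (⋂ M, ⋂ n ∈ range M, ξ n ⁻¹' S n))) := by
    apply tendsto_measure_iInter_atTop (fun M => (hmeas M).nullMeasurableSet)
    · intro M M' hMM ω hω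
      simp only [Set.mem_iInter, Finset.mem_range] at hω ⊢
      exact fun n hn => hω n (lt_of_lt_of_le hn hMM)
    · exact ⟨0, measure_ne_top _ _⟩
  rw [h1]
  have h3 : Filter.Tendsto (fun M => P.real (⋂ n ∈ range M, ξ n ⁻¹' S n)) Filter.atTop
      (nhds (P.real (⋂ M, ⋂ n ∈ range M, ξ n ⁻¹' S n))) :=
    (ENNReal.tendsto_toReal (measure_ne_top _ _)).comp h2
  refine ge_of_tendsto' h3 (fun M => ?_)
  refine (hc M).trans (le_of_eq ?_)
  rw [measureReal_def, hξi.measure_inter_preimage_eq_mul (range M) (fun n _ => hS n),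
    ENNReal.toReal_prod]
  rfl

/-- The probability of the event which forces the central term to dominate. -/
lemma event_prob {ξ : ℕ → Ω → ℂ} (hξm : ∀ n, Measurable (ξ n)) (hξi : iIndepFun ξ P)
    (hξ : ∀ n, P.map (ξ n) = gam) {m N : ℕ} (hN : m ≤ N) {a a' : ℝ} (ha : 0 ≤ a) (ha1 : a ≤ 1)
    (ha' : 0 ≤ a') (ha1' : a' ≤ 1) :
    (a ^ 2 / 2) ^ m * (a' ^ 2 / 2) ^ N * (Real.exp (-1) / 2) ≤
      P.real {ω | (∀ n, n < m → ‖ξ n ω‖ ≤ a) ∧ 1 ≤ ‖ξ m ω‖ ∧
        (∀ n, m < n → n ≤ N → ‖ξ n ω‖ ≤ a') ∧ ∀ k, ‖ξ (N + 1 + k) ω‖ ≤ (3 / 2 : ℝ) ^ (k + 1)} := by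
  let S : ℕ → Set ℂ := fun n => if n < m then {w | ‖w‖ ≤ a} else if n = m then {w | 1 ≤ ‖w‖}
    else if n ≤ N then {w | ‖w‖ ≤ a'} else {w | ‖w‖ ≤ (3 / 2 : ℝ) ^ (n - N)}
  have hS : ∀ n, MeasurableSet (S n) := by
    intro n
    simp only [S]
    split_ifs
    · exact measurableSet_le measurable_norm measurable_const
    · exact measurableSet_le measurable_const measurable_norm
    · exact measurableSet_le measurable_norm measurable_const
    · exact measurableSet_le measurable_norm measurable_const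
  have hP : ∀ n, P.real (ξ n ⁻¹' S n) = gam.real (S n) := by
    intro n
    rw [← hξ n, map_measureReal_apply (hξm n) (hS n)]
  have hsub : (⋂ n, ξ n ⁻¹' S n) ⊆ {ω | (∀ n, n < m → ‖ξ n ω‖ ≤ a) ∧ 1 ≤ ‖ξ m ω‖ ∧
        (∀ n, m < n → n ≤ N → ‖ξ n ω‖ ≤ a') ∧ ∀ k, ‖ξ (N + 1 + k) ω‖ ≤ (3 / 2 : ℝ) ^ (k + 1)} := by
    intro ω hω
    simp only [Set.mem_iInter, Set.mem_preimage] at hω
    refine ⟨fun n hn => ?_, ?_, fun n hn hn' => ?_, fun k => ?_⟩
    · have := hω n
      simp only [S, hn, if_true] at this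
      exact this
    · have := hω m
      simp only [S, lt_irrefl, if_false, if_true] at this
      exact this
    · have := hω n
      simp only [S, not_lt.mpr hn.le, hn.ne', hn', if_false, if_true] at this
      exact this
    · have := hω (N + 1 + k)
      have h1 : ¬ (N + 1 + k < m) := by omega
      have h2 : ¬ (N + 1 + k = m) := by omega
      have h3 : ¬ (N + 1 + k ≤ N) := by omega
      have h4 : N + 1 + k - N = k + 1 := by omega
      simp only [S, h1, h2, h3, if_false, h4] at this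
      exact this
  refine le_trans ?_ (measureReal_mono hsub)
  refine iInter_ge hξm hξi S hS (fun M => ?_)
  -- lower bounds of the factors
  let p : ℕ → ℝ := fun n => if n < m then a ^ 2 / 2 else if n = m then Real.exp (-1)
    else if n ≤ N then a' ^ 2 / 2 else 1 - (1 / 2 : ℝ) ^ (n - N + 1)
  have hp : ∀ n, p n ≤ P.real (ξ n ⁻¹' S n) := by
    intro n
    rw [hP]
    simp only [p, S]
    split_ifs
    · exact gam_le_small ha ha1
    · exact gam_ge_one
    · exact gam_le_small ha' ha1'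
    · exact gam_le_big _
  have hhalf : ∀ k : ℕ, (1 / 2 : ℝ) ^ k ≤ 1 := fun k => pow_le_one₀ (by norm_num) (by norm_num)
  have hp0 : ∀ n, 0 ≤ p n := by
    intro n
    simp only [p]
    split_ifs
    · positivity
    · positivity
    · positivity
    · linarith [hhalf (n - N + 1)]
  have hp1 : ∀ n, p n ≤ 1 := by
    intro n
    simp only [p]
    split_ifs
    · nlinarith
    · exact Real.exp_le_one_iff.mpr (by norm_num)
    · nlinarith
    · have : (0 : ℝ) ≤ (1 / 2 : ℝ) ^ (n - N + 1) := by positivity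
      linarith
  refine le_trans ?_ (Finset.prod_le_prod (fun n _ => hp0 n) (fun n _ => hp n))
  -- reduce to large `M`
  have hmono : ∀ M M' : ℕ, M ≤ M' → ∏ n ∈ range M', p n ≤ ∏ n ∈ range M, p n := by
    intro M M' h
    rw [← Finset.prod_range_mul_prod_Ico p h]
    exact mul_le_of_le_one_right (Finset.prod_nonneg (fun n _ => hp0 n))
      (Finset.prod_le_one (fun n _ => hp0 n) (fun n _ => hp1 n))
  have hhead : ∏ n ∈ range (N + 1), p n ≥ (a ^ 2 / 2) ^ m * (a' ^ 2 / 2) ^ N * Real.exp (-1) := by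
    rw [← Finset.prod_range_mul_prod_Ico p (show m ≤ N + 1 by omega),
      Finset.prod_eq_prod_Ico_succ_bot (show m < N + 1 by omega)]
    have e1 : ∏ n ∈ range m, p n = (a ^ 2 / 2) ^ m := by
      rw [Finset.prod_congr rfl (fun n hn => ?_), Finset.prod_const, Finset.card_range]
      simp only [p, Finset.mem_range.mp hn, if_true]
    have e2 : p m = Real.exp (-1) := by simp [p]
    have e3 : ∏ n ∈ Ico (m + 1) (N + 1), p n = (a' ^ 2 / 2) ^ (N - m) := by
      have h5 : ∀ n ∈ Ico (m + 1) (N + 1), p n = a' ^ 2 / 2 := by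
        intro n hn
        have := Finset.mem_Ico.mp hn
        have h1 : ¬ (n < m) := by omega
        have h2 : ¬ (n = m) := by omega
        have h3 : n ≤ N := by omega
        simp only [p, h1, h2, h3, if_false, if_true]
      rw [Finset.prod_congr rfl h5, Finset.prod_const, Nat.card_Ico]
      congr 1
      omega
    rw [e1, e2, e3]
    have h6 : (a' ^ 2 / 2) ^ N ≤ (a' ^ 2 / 2) ^ (N - m) :=
      pow_le_pow_of_le_one (by positivity) (by nlinarith) (by omega)
    have h7 : 0 ≤ (a ^ 2 / 2) ^ m * Real.exp (-1) := by positivity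
    nlinarith [mul_le_mul_of_nonneg_left h6 h7]
  have htail : ∀ k, ((a ^ 2 / 2) ^ m * (a' ^ 2 / 2) ^ N * Real.exp (-1)) *
      (1 / 2 + (1 / 2 : ℝ) ^ (k + 1)) ≤ ∏ n ∈ range (N + 1 + k), p n := by
    intro k
    induction k with
    | zero =>
      simp only [add_zero]
      have : (1 / 2 + (1 / 2 : ℝ) ^ (0 + 1)) = 1 := by norm_num
      rw [this, mul_one]
      exact hhead
    | succ k ih =>
      rw [← add_assoc, Finset.prod_range_succ]
      have h1 : ¬ (N + 1 + k < m) := by omega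
      have h2 : ¬ (N + 1 + k = m) := by omega
      have h3 : ¬ (N + 1 + k ≤ N) := by omega
      have h4 : N + 1 + k - N + 1 = k + 2 := by omega
      have h5 : p (N + 1 + k) = 1 - (1 / 2 : ℝ) ^ (k + 2) := by
        simp only [p, h1, h2, h3, if_false, h4]
      rw [h5]
      have h6 : 0 ≤ 1 - (1 / 2 : ℝ) ^ (k + 2) := by linarith [hhalf (k + 2)]
      have h7 : (0 : ℝ) ≤ (1 / 2 : ℝ) ^ k := by positivity
      have h8 := hhalf k
      have h11 : (1 / 2 + (1 / 2 : ℝ) ^ (k + 1 + 1)) ≤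
          (1 / 2 + (1 / 2 : ℝ) ^ (k + 1)) * (1 - (1 / 2 : ℝ) ^ (k + 2)) := by
        simp only [pow_succ]
        nlinarith
      have h12 : 0 ≤ (a ^ 2 / 2) ^ m * (a' ^ 2 / 2) ^ N * Real.exp (-1) := by positivity
      calc (a ^ 2 / 2) ^ m * (a' ^ 2 / 2) ^ N * Real.exp (-1) * (1 / 2 + (1 / 2 : ℝ) ^ (k + 1 + 1))
          ≤ (a ^ 2 / 2) ^ m * (a' ^ 2 / 2) ^ N * Real.exp (-1) *
            ((1 / 2 + (1 / 2 : ℝ) ^ (k + 1)) * (1 - (1 / 2 : ℝ) ^ (k + 2))) :=
              mul_le_mul_of_nonneg_left h11 h12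
        _ = (a ^ 2 / 2) ^ m * (a' ^ 2 / 2) ^ N * Real.exp (-1) *
            (1 / 2 + (1 / 2 : ℝ) ^ (k + 1)) * (1 - (1 / 2 : ℝ) ^ (k + 2)) := by ring
        _ ≤ _ := mul_le_mul_of_nonneg_right ih h6
  have hbig := hmono M (max M (N + 1)) (le_max_left _ _)
  refine le_trans ?_ hbig
  obtain ⟨k, hk⟩ := Nat.exists_eq_add_of_le (le_max_right M (N + 1))
  rw [hk]
  refine le_trans ?_ (htail k)
  have h9 : (0 : ℝ) ≤ (1 / 2 : ℝ) ^ (k + 1) := by positivity
  have h10 : 0 ≤ (a ^ 2 / 2) ^ m * (a' ^ 2 / 2) ^ N * Real.exp (-1) := by positivity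
  nlinarith [mul_nonneg h10 h9]

end Pool.Agent.K1H98.HP
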